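import Mathlib

/-!
# A three-dimensional real Banach space with `n^(2)(X) = 0` and `n(X) > 0`

On `ℝ³` consider `N(x) = |x| + |Dx|` where `|.|` is the Euclidean norm and `D = diag(1,2,3)`.
The quadratic (Euler top) field `P(x) = (-5 x₁x₂, 8 x₀x₂, -3 x₀x₁)` is tangent to the level sets of
both quadratic forms `|x|²` and `|Dx|²`, so that it has numerical radius zero.
On the other hand no nonzero linear operator has numerical radius zero.
-/

set_option autoImplicit false

namespace Pool.Agent.Results.MP_07f7bf_an.ThreeDimExample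

open Set

/-- The numerical radius of a map `P : X → X`: the supremum of `|f (P x)|` over all pairs `(x, f)`
with `‖x‖ = ‖f‖ = f x = 1`. -/
noncomputable def numRadius (X : Type) [NormedAddCommGroup X] [NormedSpace ℝ X] (P : X → X) : ℝ :=
  sSup {r : ℝ | ∃ (x : X) (f : X →L[ℝ] ℝ), ‖x‖ = 1 ∧ ‖f‖ = 1 ∧ f x = 1 ∧ r = |f (P x)|}

/-- The norm of a map `P : X → X`: the supremum of `‖P x‖` over the closed unit ball. -/
noncomputable def polyNorm (X : Type) [NormedAddCommGroup X] (P : X → X) : ℝ :=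
  sSup {r : ℝ | ∃ x : X, ‖x‖ ≤ 1 ∧ r = ‖P x‖}

/-- `P` is a continuous `k`-homogeneous polynomial: `P x = A (x, …, x)` for a bounded `k`-linear
map `A : X^k → X`. -/
def IsHomPoly (X : Type) [NormedAddCommGroup X] [NormedSpace ℝ X] (k : ℕ) (P : X → X) : Prop :=
  ∃ A : ContinuousMultilinearMap ℝ (fun _ : Fin k => X) X, ∀ x : X, P x = A (fun _ => x)

/-- The polynomial numerical index of order `k` of `X`. -/
noncomputable def polyNumIndex (X : Type) [NormedAddCommGroup X] [NormedSpace ℝ X] (k : ℕ) : ℝ :=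
  sInf {r : ℝ | ∃ P : X → X, IsHomPoly X k P ∧ polyNorm X P = 1 ∧ r = numRadius X P}

/-! ### The space -/

/-- The underlying vector space of the example. -/
def E3 : Type := Fin 3 → ℝ

instance : AddCommGroup E3 := inferInstanceAs (AddCommGroup (Fin 3 → ℝ))
instance : Module ℝ E3 := inferInstanceAs (Module ℝ (Fin 3 → ℝ))
instance : Module.Finite ℝ E3 := inferInstanceAs (Module.Finite ℝ (Fin 3 → ℝ))
instance : Nontrivial E3 := inferInstanceAs (Nontrivial (Fin 3 → ℝ))

theorem E3.add_apply (x y : E3) (i : Fin 3) : (x + y) i = x i + y i := rfl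
theorem E3.smul_apply (c : ℝ) (x : E3) (i : Fin 3) : (c • x) i = c * x i := rfl
theorem E3.zero_apply (i : Fin 3) : (0 : E3) i = 0 := rfl
theorem E3.ext' {x y : E3} (h : ∀ i, x i = y i) : x = y := funext h

abbrev V3 := EuclideanSpace ℝ (Fin 3)

/-- The embedding `x ↦ (x, D x)`. -/
noncomputable def J : E3 →ₗ[ℝ] WithLp 1 (V3 × V3) where
  toFun x := WithLp.toLp 1 (WithLp.toLp 2 (fun i => x i), WithLp.toLp 2 ![x 0, 2 * x 1, 3 * x 2])
  map_add' x y := by
    apply (WithLp.linearEquiv 1 ℝ (V3 × V3)).injective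
    refine Prod.ext ?_ ?_
    · ext i
      simp [E3.add_apply]
    · ext i
      fin_cases i <;> simp [E3.add_apply, mul_add]
  map_smul' c x := by
    apply (WithLp.linearEquiv 1 ℝ (V3 × V3)).injective
    refine Prod.ext ?_ ?_
    · ext i
      simp [E3.smul_apply]
    · ext i
      fin_cases i <;> simp [E3.smul_apply] <;> ring

theorem J_injective : Function.Injective J := by
  intro x y h
  have h1 := congrArg (fun p => (WithLp.ofLp p).1) h
  apply E3.ext'
  intro i
  have h2 := congrArg (fun q : V3 => q i) h1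
  simpa [J] using h2

noncomputable instance : NormedAddCommGroup E3 :=
  NormedAddCommGroup.induced E3 (WithLp 1 (V3 × V3)) J J_injective

noncomputable instance : NormedSpace ℝ E3 := NormedSpace.induced ℝ E3 (WithLp 1 (V3 × V3)) J

instance : FiniteDimensional ℝ E3 := inferInstanceAs (Module.Finite ℝ (Fin 3 → ℝ))

/-- First quadratic form. -/
def q1 (x : E3) : ℝ := x 0 ^ 2 + x 1 ^ 2 + x 2 ^ 2
/-- Second quadratic form. -/
def q2 (x : E3) : ℝ := x 0 ^ 2 + 4 * x 1 ^ 2 + 9 * x 2 ^ 2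
/-- First bilinear form. -/
def b1 (x y : E3) : ℝ := x 0 * y 0 + x 1 * y 1 + x 2 * y 2
/-- Second bilinear form. -/
def b2 (x y : E3) : ℝ := x 0 * y 0 + 4 * (x 1 * y 1) + 9 * (x 2 * y 2)

theorem norm_def (x : E3) : ‖x‖ = Real.sqrt (q1 x) + Real.sqrt (q2 x) := by
  change ‖J x‖ = _
  rw [WithLp.prod_norm_eq_of_L1]
  congr 1
  · rw [EuclideanSpace.norm_eq]
    congr 1
    simp [J, q1, Fin.sum_univ_three]
  · rw [EuclideanSpace.norm_eq]
    congr 1
    simp [J, q2, Fin.sum_univ_three]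
    ring

theorem q1_nonneg (x : E3) : 0 ≤ q1 x := by unfold q1; positivity
theorem q2_nonneg (x : E3) : 0 ≤ q2 x := by unfold q2; positivity

theorem q1_pos {x : E3} (hx : x ≠ 0) : 0 < q1 x := by
  rcases (q1_nonneg x).lt_or_eq with h | h
  · exact h
  · exfalso
    apply hx
    have h0 : x 0 = 0 := by
      unfold q1 at h; nlinarith [sq_nonneg (x 0), sq_nonneg (x 1), sq_nonneg (x 2)]
    have h1 : x 1 = 0 := by
      unfold q1 at h; nlinarith [sq_nonneg (x 0), sq_nonneg (x 1), sq_nonneg (x 2)]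
    have h2 : x 2 = 0 := by
      unfold q1 at h; nlinarith [sq_nonneg (x 0), sq_nonneg (x 1), sq_nonneg (x 2)]
    apply E3.ext'
    intro i
    fin_cases i
    · exact h0
    · exact h1
    · exact h2

theorem q2_pos {x : E3} (hx : x ≠ 0) : 0 < q2 x := by
  have h := q1_pos hx
  unfold q1 at h
  unfold q2
  nlinarith [sq_nonneg (x 0), sq_nonneg (x 1), sq_nonneg (x 2)]

theorem q1_add (x h : E3) (s : ℝ) :
    q1 (x + s • h) = q1 x + (2 * s * b1 x h + s ^ 2 * q1 h) := by
  simp only [q1, b1, E3.add_apply, E3.smul_apply]; ring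

theorem q2_add (x h : E3) (s : ℝ) :
    q2 (x + s • h) = q2 x + (2 * s * b2 x h + s ^ 2 * q2 h) := by
  simp only [q2, b2, E3.add_apply, E3.smul_apply]; ring

theorem sqrt_le_of_expand {a b : ℝ} (ha : 0 < a) (h : 0 ≤ a ^ 2 + b) :
    Real.sqrt (a ^ 2 + b) ≤ a + b / (2 * a) := by
  have h1 : a + b / (2 * a) = (2 * a ^ 2 + b) / (2 * a) := by field_simp
  have h2 : 0 ≤ a + b / (2 * a) := by
    rw [h1]; apply div_nonneg <;> nlinarith [sq_nonneg a]
  apply Real.sqrt_le_iff.mpr
  refine ⟨h2, ?_⟩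
  have h3 : (a + b / (2 * a)) ^ 2 = a ^ 2 + b + (b / (2 * a)) ^ 2 := by
    field_simp; ring
  rw [h3]
  nlinarith [sq_nonneg (b / (2 * a))]

/-- The norm of the example is differentiable away from the origin, so that a supporting functional
is given by the gradient. -/
theorem support_eq {x : E3} {f : E3 →L[ℝ] ℝ} (hx : ‖x‖ = 1) (hf : ‖f‖ = 1) (hfx : f x = 1)
    (h : E3) : f h = b1 x h / Real.sqrt (q1 x) + b2 x h / Real.sqrt (q2 x) := by
  have hx0 : x ≠ 0 := by
    intro h0; rw [h0, norm_zero] at hx; exact zero_ne_one hx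
  have ha1 : 0 < Real.sqrt (q1 x) := Real.sqrt_pos.mpr (q1_pos hx0)
  have ha2 : 0 < Real.sqrt (q2 x) := Real.sqrt_pos.mpr (q2_pos hx0)
  set a1 := Real.sqrt (q1 x) with ha1d
  set a2 := Real.sqrt (q2 x) with ha2d
  have hs1 : a1 ^ 2 = q1 x := Real.sq_sqrt (q1_nonneg x)
  have hs2 : a2 ^ 2 = q2 x := Real.sq_sqrt (q2_nonneg x)
  have hsum : a1 + a2 = 1 := by rw [ha1d, ha2d, ← norm_def, hx]
  set C := q1 h / (2 * a1) + q2 h / (2 * a2) with hC
  have hC0 : 0 ≤ C := by
    have := q1_nonneg h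
    have := q2_nonneg h
    positivity
  set g := b1 x h / a1 + b2 x h / a2 with hg
  have key : ∀ s : ℝ, s * (f h - g) ≤ C * s ^ 2 := by
    intro s
    have h1 : f (x + s • h) ≤ ‖x + s • h‖ := by
      calc f (x + s • h) ≤ ‖f (x + s • h)‖ := le_abs_self _
        _ ≤ ‖f‖ * ‖x + s • h‖ := f.le_opNorm _
        _ = ‖x + s • h‖ := by rw [hf, one_mul]
    have h2 : f (x + s • h) = 1 + s * f h := by
      rw [map_add, map_smul, hfx, smul_eq_mul]
    have e1 : Real.sqrt (q1 (x + s • h)) ≤ a1 + (2 * s * b1 x h + s ^ 2 * q1 h) / (2 * a1) := by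
      have := q1_nonneg (x + s • h)
      rw [q1_add, ← hs1] at this ⊢
      exact sqrt_le_of_expand ha1 this
    have e2 : Real.sqrt (q2 (x + s • h)) ≤ a2 + (2 * s * b2 x h + s ^ 2 * q2 h) / (2 * a2) := by
      have := q2_nonneg (x + s • h)
      rw [q2_add, ← hs2] at this ⊢
      exact sqrt_le_of_expand ha2 this
    have e3 : ‖x + s • h‖ ≤ a1 + a2 + s * g + C * s ^ 2 := by
      rw [norm_def]
      have e4 : a1 + a2 + s * g + C * s ^ 2 = (a1 + (2 * s * b1 x h + s ^ 2 * q1 h) / (2 * a1)) +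
          (a2 + (2 * s * b2 x h + s ^ 2 * q2 h) / (2 * a2)) := by
        rw [hg, hC]; field_simp; ring
      rw [e4]; exact add_le_add e1 e2
    nlinarith
  by_contra hne
  have hδ : f h - g ≠ 0 := fun h0 => hne (by linarith)
  have hk := key ((f h - g) / (C + 1))
  have hC1 : 0 < C + 1 := by linarith
  have h3 : (f h - g) / (C + 1) * (f h - g) = (f h - g) ^ 2 / (C + 1) := by ring
  have h4 : C * ((f h - g) / (C + 1)) ^ 2 = C * (f h - g) ^ 2 / (C + 1) ^ 2 := by
    rw [div_pow]; ring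
  rw [h3, h4, div_le_div_iff₀ hC1 (by positivity)] at hk
  have h5 : 0 < (f h - g) ^ 2 := by positivity
  have h6 : (f h - g) ^ 2 * (C + 1) ^ 2 - C * (f h - g) ^ 2 * (C + 1) = (f h - g) ^ 2 * (C + 1) := by
    ring
  have h7 : 0 < (f h - g) ^ 2 * (C + 1) := by positivity
  linarith

/-! ### The quadratic polynomial of numerical radius zero -/

/-- The identity `ℝ³ → E3`, as a linear map. -/
def ofFun : (Fin 3 → ℝ) →ₗ[ℝ] E3 where
  toFun x := x
  map_add' _ _ := rfl
  map_smul' _ _ := rfl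

theorem ofFun_apply (x : Fin 3 → ℝ) (i : Fin 3) : ofFun x i = x i := rfl

theorem continuous_ofFun : Continuous ofFun := LinearMap.continuous_of_finiteDimensional ofFun

/-- Coordinates on `E3`. -/
def coord (i : Fin 3) : E3 →ₗ[ℝ] ℝ where
  toFun x := x i
  map_add' _ _ := rfl
  map_smul' _ _ := rfl

theorem continuous_coord (i : Fin 3) : Continuous (fun x : E3 => x i) :=
  LinearMap.continuous_of_finiteDimensional (coord i)

/-- The Euler top vector field. -/
def eulerField (x : E3) : E3 :=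
  ofFun ![-5 * (x 1 * x 2), 8 * (x 0 * x 2), -3 * (x 0 * x 1)]

theorem b1_eulerField (x : E3) : b1 x (eulerField x) = 0 := by
  simp [b1, eulerField, ofFun_apply]; ring

theorem b2_eulerField (x : E3) : b2 x (eulerField x) = 0 := by
  simp [b2, eulerField, ofFun_apply]; ring

/-- The Euler top vector field as a bounded bilinear map on the diagonal. -/
theorem eulerField_isHomPoly : IsHomPoly E3 2 eulerField := by
  let m : MultilinearMap ℝ (fun _ : Fin 2 => E3) E3 := MultilinearMap.mk'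
    (fun v => ofFun ![-5 * (v 0 1 * v 1 2), 8 * (v 0 0 * v 1 2), -3 * (v 0 0 * v 1 1)])
    (by
      intro v i x y
      apply E3.ext'
      intro k
      fin_cases i <;> fin_cases k <;> simp [E3.add_apply, ofFun_apply] <;> ring)
    (by
      intro v i c x
      apply E3.ext'
      intro k
      fin_cases i <;> fin_cases k <;> simp [E3.smul_apply, ofFun_apply] <;> ring)
  have hm : Continuous m := by
    change Continuous (fun v : Fin 2 → E3 =>
      ofFun ![-5 * (v 0 1 * v 1 2), 8 * (v 0 0 * v 1 2), -3 * (v 0 0 * v 1 1)])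
    apply continuous_ofFun.comp
    have hc : ∀ (j : Fin 2) (i : Fin 3), Continuous (fun v : Fin 2 → E3 => v j i) :=
      fun j i => (continuous_coord i).comp (continuous_apply j)
    apply continuous_pi
    intro k
    fin_cases k
    · exact continuous_const.mul ((hc 0 1).mul (hc 1 2))
    · exact continuous_const.mul ((hc 0 0).mul (hc 1 2))
    · exact continuous_const.mul ((hc 0 0).mul (hc 1 1))
  exact ⟨⟨m, hm⟩, fun x => rfl⟩

theorem numRadius_eulerField_smul (c : ℝ) :
    numRadius E3 (fun x => c • eulerField x) = 0 := by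
  unfold numRadius
  apply le_antisymm
  · apply Real.sSup_nonpos
    rintro r ⟨x, f, hx, hf, hfx, rfl⟩
    have : f (c • eulerField x) = 0 := by
      rw [map_smul, support_eq hx hf hfx, b1_eulerField, b2_eulerField]
      simp
    rw [this, abs_zero]
  · apply Real.sSup_nonneg
    rintro r ⟨x, f, hx, hf, hfx, rfl⟩
    exact abs_nonneg _

/-- The norm of a continuous homogeneous polynomial is a genuine supremum. -/
theorem polyNorm_bddAbove {k : ℕ} {P : E3 → E3} (hP : IsHomPoly E3 k P) :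
    BddAbove {r : ℝ | ∃ x : E3, ‖x‖ ≤ 1 ∧ r = ‖P x‖} := by
  obtain ⟨A, hA⟩ := hP
  refine ⟨‖A‖, ?_⟩
  rintro r ⟨x, hx, rfl⟩
  rw [hA]
  calc ‖A fun _ => x‖ ≤ ‖A‖ * ∏ _i : Fin k, ‖x‖ := A.le_opNorm _
    _ ≤ ‖A‖ * 1 := by
        gcongr
        simp only [Finset.prod_const, Finset.card_univ, Fintype.card_fin]
        exact pow_le_one₀ (norm_nonneg _) hx
    _ = ‖A‖ := mul_one _

open scoped Pointwise in
theorem polyNorm_smul (c : ℝ) (hc : 0 ≤ c) (P : E3 → E3) :
    polyNorm E3 (fun x => c • P x) = c * polyNorm E3 P := by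
  unfold polyNorm
  have : {r : ℝ | ∃ x : E3, ‖x‖ ≤ 1 ∧ r = ‖c • P x‖} =
      c • {r : ℝ | ∃ x : E3, ‖x‖ ≤ 1 ∧ r = ‖P x‖} := by
    ext r
    constructor
    · rintro ⟨x, hx, rfl⟩
      refine ⟨‖P x‖, ⟨x, hx, rfl⟩, ?_⟩
      simp [norm_smul, abs_of_nonneg hc]
    · rintro ⟨_, ⟨x, hx, rfl⟩, rfl⟩
      refine ⟨x, hx, ?_⟩
      simp [norm_smul, abs_of_nonneg hc]
  rw [this, Real.sSup_smul_of_nonneg hc, smul_eq_mul]

theorem isHomPoly_smul {k : ℕ} {P : E3 → E3} (hP : IsHomPoly E3 k P) (c : ℝ) :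
    IsHomPoly E3 k (fun x => c • P x) := by
  obtain ⟨A, hA⟩ := hP
  exact ⟨c • A, fun x => by simp [hA]⟩

theorem polyNorm_eulerField_pos : 0 < polyNorm E3 eulerField := by
  let w : E3 := ofFun ![1, 1, 1]
  have hw0 : w ≠ 0 := by
    intro h
    have := congrFun h 0
    simp [w, E3.zero_apply, ofFun_apply] at this
  have hwn : 0 < ‖w‖ := norm_pos_iff.mpr hw0
  let y : E3 := ‖w‖⁻¹ • w
  have hy : ‖y‖ ≤ 1 := by
    simp only [y]
    rw [norm_smul, norm_inv, norm_norm, inv_mul_cancel₀ hwn.ne']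
  have hy0 : eulerField y ≠ 0 := by
    intro h
    have := congrFun h 0
    have h2 : eulerField y 0 = -5 * (‖w‖⁻¹ * ‖w‖⁻¹) := by
      simp [eulerField, y, w, E3.smul_apply, ofFun_apply]
    rw [h2] at this
    have h3 : (0 : E3) 0 = 0 := rfl
    rw [h3] at this
    have : 0 < ‖w‖⁻¹ * ‖w‖⁻¹ := by positivity
    linarith
  have hpos : 0 < ‖eulerField y‖ := norm_pos_iff.mpr hy0
  exact lt_of_lt_of_le hpos (le_csSup (polyNorm_bddAbove eulerField_isHomPoly) ⟨y, hy, rfl⟩)

theorem polyNumIndex_two : polyNumIndex E3 2 = 0 := by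
  unfold polyNumIndex
  have hb : ∀ r ∈ {r : ℝ | ∃ P : E3 → E3, IsHomPoly E3 2 P ∧ polyNorm E3 P = 1 ∧
      r = numRadius E3 P}, 0 ≤ r := by
    rintro r ⟨P, -, -, rfl⟩
    apply Real.sSup_nonneg
    rintro r ⟨x, f, -, -, -, rfl⟩
    exact abs_nonneg _
  apply le_antisymm
  · apply csInf_le ⟨0, hb⟩
    refine ⟨fun x => (polyNorm E3 eulerField)⁻¹ • eulerField x,
      isHomPoly_smul eulerField_isHomPoly _, ?_, ?_⟩
    · rw [polyNorm_smul _ (inv_nonneg.mpr polyNorm_eulerField_pos.le),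
        inv_mul_cancel₀ polyNorm_eulerField_pos.ne']
    · rw [numRadius_eulerField_smul]
  · exact Real.sInf_nonneg hb

/-! ### Linear operators -/

/-- The set defining the numerical radius of a bounded operator is bounded above. -/
theorem numRadius_bddAbove (T : E3 →L[ℝ] E3) :
    BddAbove {r : ℝ | ∃ (x : E3) (f : E3 →L[ℝ] ℝ), ‖x‖ = 1 ∧ ‖f‖ = 1 ∧ f x = 1 ∧
      r = |f (T x)|} := by
  refine ⟨‖T‖, ?_⟩
  rintro r ⟨x, f, hx, hf, hfx, rfl⟩
  calc |f (T x)| = ‖f (T x)‖ := rfl
    _ ≤ ‖f‖ * ‖T x‖ := f.le_opNorm _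
    _ ≤ ‖f‖ * (‖T‖ * ‖x‖) := by gcongr; exact T.le_opNorm _
    _ = ‖T‖ := by rw [hf, hx]; ring

theorem numRadius_nonneg (P : E3 → E3) : 0 ≤ numRadius E3 P := by
  apply Real.sSup_nonneg
  rintro r ⟨x, f, hx, hf, hfx, rfl⟩
  exact abs_nonneg _

theorem numRadius_le_add (T S : E3 →L[ℝ] E3) :
    numRadius E3 T ≤ numRadius E3 S + ‖T - S‖ := by
  apply Real.sSup_le
  · rintro r ⟨x, f, hx, hf, hfx, rfl⟩
    have h1 : |f (S x)| ≤ numRadius E3 S :=
      le_csSup (numRadius_bddAbove S) ⟨x, f, hx, hf, hfx, rfl⟩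
    have h2 : |f ((T - S) x)| ≤ ‖T - S‖ := by
      calc |f ((T - S) x)| = ‖f ((T - S) x)‖ := rfl
        _ ≤ ‖f‖ * ‖(T - S) x‖ := f.le_opNorm _
        _ ≤ ‖f‖ * (‖T - S‖ * ‖x‖) := by gcongr; exact (T - S).le_opNorm _
        _ = ‖T - S‖ := by rw [hf, hx]; ring
    have h3 : f (T x) = f (S x) + f ((T - S) x) := by
      rw [← map_add]; congr 1; simp
    rw [h3]
    exact (abs_add_le _ _).trans (add_le_add h1 h2)
  · exact add_nonneg (numRadius_nonneg _) (norm_nonneg _)

theorem continuous_numRadius : Continuous (fun T : E3 →L[ℝ] E3 => numRadius E3 T) := by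
  apply LipschitzWith.continuous (K := 1)
  apply LipschitzWith.of_dist_le_mul
  intro T S
  rw [NNReal.coe_one, one_mul, Real.dist_eq, dist_eq_norm, abs_le]
  constructor
  · have := numRadius_le_add S T
    rw [← norm_neg, neg_sub] at this
    linarith
  · have := numRadius_le_add T S
    linarith

/-- If the numerical radius of `T` vanishes, then the gradient of the norm annihilates `T x`. -/
theorem gradient_eq_zero {T : E3 →L[ℝ] E3} (hT : numRadius E3 T = 0) (x : E3) :
    b1 x (T x) * Real.sqrt (q2 x) + b2 x (T x) * Real.sqrt (q1 x) = 0 := by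
  by_cases hx : x = 0
  · subst hx
    simp [b1, b2, E3.zero_apply]
  have hxn : 0 < ‖x‖ := norm_pos_iff.mpr hx
  obtain ⟨c, hc, y, hy, rfl⟩ : ∃ c : ℝ, 0 < c ∧ ∃ y : E3, ‖y‖ = 1 ∧ x = c • y := by
    refine ⟨‖x‖, hxn, ‖x‖⁻¹ • x, ?_, ?_⟩
    · rw [norm_smul, norm_inv, norm_norm, inv_mul_cancel₀ hxn.ne']
    · rw [smul_smul, mul_inv_cancel₀ hxn.ne', one_smul]
  have hy0 : y ≠ 0 := by
    intro h0; rw [h0, norm_zero] at hy; exact zero_ne_one hy
  obtain ⟨f, hf, hfy⟩ := exists_dual_vector ℝ y (by rw [hy]; exact one_ne_zero)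
  have hfy' : f y = 1 := by rw [hfy, hy]; rfl
  have h1 : |f (T y)| ≤ 0 := by
    rw [← hT]
    exact le_csSup (numRadius_bddAbove T) ⟨y, f, hy, hf, hfy', rfl⟩
  have h2 : f (T y) = 0 := abs_nonpos_iff.mp h1
  rw [support_eq hy hf hfy'] at h2
  have ha1 : 0 < Real.sqrt (q1 y) := Real.sqrt_pos.mpr (q1_pos hy0)
  have ha2 : 0 < Real.sqrt (q2 y) := Real.sqrt_pos.mpr (q2_pos hy0)
  have h3 : b1 y (T y) * Real.sqrt (q2 y) + b2 y (T y) * Real.sqrt (q1 y) = 0 := by
    field_simp at h2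
    linarith
  have e1 : b1 (c • y) (T (c • y)) = c ^ 2 * b1 y (T y) := by
    rw [map_smul]; simp only [b1, E3.smul_apply]; ring
  have e2 : b2 (c • y) (T (c • y)) = c ^ 2 * b2 y (T y) := by
    rw [map_smul]; simp only [b2, E3.smul_apply]; ring
  have e3 : Real.sqrt (q1 (c • y)) = c * Real.sqrt (q1 y) := by
    have : q1 (c • y) = c ^ 2 * q1 y := by simp only [q1, E3.smul_apply]; ring
    rw [this, Real.sqrt_mul (sq_nonneg c), Real.sqrt_sq hc.le]
  have e4 : Real.sqrt (q2 (c • y)) = c * Real.sqrt (q2 y) := by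
    have : q2 (c • y) = c ^ 2 * q2 y := by simp only [q2, E3.smul_apply]; ring
    rw [this, Real.sqrt_mul (sq_nonneg c), Real.sqrt_sq hc.le]
  rw [e1, e2, e3, e4]
  have : c ^ 2 * b1 y (T y) * (c * Real.sqrt (q2 y)) + c ^ 2 * b2 y (T y) * (c * Real.sqrt (q1 y)) =
      c ^ 3 * (b1 y (T y) * Real.sqrt (q2 y) + b2 y (T y) * Real.sqrt (q1 y)) := by ring
  rw [this, h3, mul_zero]

theorem two_eqs {α β c1 c2 : ℝ} (hc1 : 0 ≤ c1) (hc2 : 0 ≤ c2)
    (h1 : α * Real.sqrt c1 + β * Real.sqrt 2 = 0)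
    (h2 : α * Real.sqrt c2 + β * Real.sqrt 5 = 0) (hne : c1 * 5 ≠ c2 * 2) : α = 0 ∧ β = 0 := by
  have k1 : α ^ 2 * c1 = β ^ 2 * 2 := by
    have : (α * Real.sqrt c1) ^ 2 = (β * Real.sqrt 2) ^ 2 := by
      have : α * Real.sqrt c1 = -(β * Real.sqrt 2) := by linarith
      rw [this]; ring
    rwa [mul_pow, mul_pow, Real.sq_sqrt hc1, Real.sq_sqrt (by norm_num)] at this
  have k2 : α ^ 2 * c2 = β ^ 2 * 5 := by
    have : (α * Real.sqrt c2) ^ 2 = (β * Real.sqrt 5) ^ 2 := by
      have : α * Real.sqrt c2 = -(β * Real.sqrt 5) := by linarith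
      rw [this]; ring
    rwa [mul_pow, mul_pow, Real.sq_sqrt hc2, Real.sq_sqrt (by norm_num)] at this
  have k3 : α ^ 2 * (c1 * 5 - c2 * 2) = 0 := by linarith
  have hα : α = 0 := by
    rcases mul_eq_zero.mp k3 with h | h
    · exact pow_eq_zero_iff (two_ne_zero) |>.mp h
    · exact absurd (by linarith) hne
  refine ⟨hα, ?_⟩
  rw [hα] at k1
  have : β ^ 2 = 0 := by linarith
  exact pow_eq_zero_iff (two_ne_zero) |>.mp this

theorem eq_zero_of_numRadius {T : E3 →L[ℝ] E3} (hT : numRadius E3 T = 0) : T = 0 := by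
  let e0 : E3 := ofFun ![1, 0, 0]
  let e1 : E3 := ofFun ![0, 1, 0]
  let e2 : E3 := ofFun ![0, 0, 1]
  have g := gradient_eq_zero hT
  have a00 : T e0 0 = 0 := by
    have h := g e0
    have k1 : q1 e0 = 1 := by simp [q1, e0, ofFun_apply]
    have k2 : q2 e0 = 1 := by simp [q2, e0, ofFun_apply]
    rw [k1, k2, Real.sqrt_one] at h
    have k3 : b1 e0 (T e0) = T e0 0 := by simp [b1, e0, ofFun_apply]
    have k4 : b2 e0 (T e0) = T e0 0 := by simp [b2, e0, ofFun_apply]
    rw [k3, k4] at h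
    linarith
  have a11 : T e1 1 = 0 := by
    have h := g e1
    have k1 : q1 e1 = 1 := by simp [q1, e1, ofFun_apply]
    have k2 : q2 e1 = 4 := by simp [q2, e1, ofFun_apply]
    rw [k1, k2, Real.sqrt_one] at h
    have k3 : b1 e1 (T e1) = T e1 1 := by simp [b1, e1, ofFun_apply]
    have k4 : b2 e1 (T e1) = 4 * T e1 1 := by simp [b2, e1, ofFun_apply]
    rw [k3, k4] at h
    have h4 : 0 < Real.sqrt 4 := Real.sqrt_pos.mpr (by norm_num)
    have : T e1 1 * (Real.sqrt 4 + 4) = 0 := by linarith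
    rcases mul_eq_zero.mp this with h | h
    · exact h
    · linarith
  have a22 : T e2 2 = 0 := by
    have h := g e2
    have k1 : q1 e2 = 1 := by simp [q1, e2, ofFun_apply]
    have k2 : q2 e2 = 9 := by simp [q2, e2, ofFun_apply]
    rw [k1, k2, Real.sqrt_one] at h
    have k3 : b1 e2 (T e2) = T e2 2 := by simp [b1, e2, ofFun_apply]
    have k4 : b2 e2 (T e2) = 9 * T e2 2 := by simp [b2, e2, ofFun_apply]
    rw [k3, k4] at h
    have h4 : 0 < Real.sqrt 9 := Real.sqrt_pos.mpr (by norm_num)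
    have : T e2 2 * (Real.sqrt 9 + 9) = 0 := by linarith
    rcases mul_eq_zero.mp this with h | h
    · exact h
    · linarith
  have lin : ∀ (s : ℝ) (u v : E3) (i : Fin 3), T (u + s • v) i = T u i + s * T v i := by
    intro s u v i
    rw [map_add, map_smul]; rfl
  have p01 : T e1 0 + T e0 1 = 0 ∧ T e1 0 + 4 * T e0 1 = 0 := by
    apply two_eqs (c1 := 5) (c2 := 17) (by norm_num) (by norm_num) _ _ (by norm_num)
    · have h := g (e0 + (1 : ℝ) • e1)
      simp only [b1, b2, lin, a00, a11] at h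
      have k1 : q1 (e0 + (1 : ℝ) • e1) = 2 := by
        simp [q1, e0, e1, E3.add_apply, ofFun_apply]; norm_num
      have k2 : q2 (e0 + (1 : ℝ) • e1) = 5 := by
        simp [q2, e0, e1, E3.add_apply, ofFun_apply]; norm_num
      rw [k1, k2] at h
      simp [e0, e1, E3.add_apply, ofFun_apply] at h ⊢
      linarith
    · have h := g (e0 + (2 : ℝ) • e1)
      simp only [b1, b2, lin, a00, a11] at h
      have k1 : q1 (e0 + (2 : ℝ) • e1) = 5 := by
        simp [q1, e0, e1, E3.add_apply, E3.smul_apply, ofFun_apply]; norm_num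
      have k2 : q2 (e0 + (2 : ℝ) • e1) = 17 := by
        simp [q2, e0, e1, E3.add_apply, E3.smul_apply, ofFun_apply]; norm_num
      rw [k1, k2] at h
      simp [e0, e1, E3.add_apply, E3.smul_apply, ofFun_apply] at h ⊢
      linarith
  have p02 : T e2 0 + T e0 2 = 0 ∧ T e2 0 + 9 * T e0 2 = 0 := by
    apply two_eqs (c1 := 10) (c2 := 37) (by norm_num) (by norm_num) _ _ (by norm_num)
    · have h := g (e0 + (1 : ℝ) • e2)
      simp only [b1, b2, lin, a00, a22] at h
      have k1 : q1 (e0 + (1 : ℝ) • e2) = 2 := by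
        simp [q1, e0, e2, E3.add_apply, ofFun_apply]; norm_num
      have k2 : q2 (e0 + (1 : ℝ) • e2) = 10 := by
        simp [q2, e0, e2, E3.add_apply, ofFun_apply]; norm_num
      rw [k1, k2] at h
      simp [e0, e2, E3.add_apply, ofFun_apply] at h ⊢
      linarith
    · have h := g (e0 + (2 : ℝ) • e2)
      simp only [b1, b2, lin, a00, a22] at h
      have k1 : q1 (e0 + (2 : ℝ) • e2) = 5 := by
        simp [q1, e0, e2, E3.add_apply, E3.smul_apply, ofFun_apply]; norm_num
      have k2 : q2 (e0 + (2 : ℝ) • e2) = 37 := by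
        simp [q2, e0, e2, E3.add_apply, E3.smul_apply, ofFun_apply]; norm_num
      rw [k1, k2] at h
      simp [e0, e2, E3.add_apply, E3.smul_apply, ofFun_apply] at h ⊢
      linarith
  have p12 : T e2 1 + T e1 2 = 0 ∧ 4 * T e2 1 + 9 * T e1 2 = 0 := by
    apply two_eqs (c1 := 13) (c2 := 40) (by norm_num) (by norm_num) _ _ (by norm_num)
    · have h := g (e1 + (1 : ℝ) • e2)
      simp only [b1, b2, lin, a11, a22] at h
      have k1 : q1 (e1 + (1 : ℝ) • e2) = 2 := by
        simp [q1, e1, e2, E3.add_apply, ofFun_apply]; norm_num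
      have k2 : q2 (e1 + (1 : ℝ) • e2) = 13 := by
        simp [q2, e1, e2, E3.add_apply, ofFun_apply]; norm_num
      rw [k1, k2] at h
      simp [e1, e2, E3.add_apply, ofFun_apply] at h ⊢
      linarith
    · have h := g (e1 + (2 : ℝ) • e2)
      simp only [b1, b2, lin, a11, a22] at h
      have k1 : q1 (e1 + (2 : ℝ) • e2) = 5 := by
        simp [q1, e1, e2, E3.add_apply, E3.smul_apply, ofFun_apply]; norm_num
      have k2 : q2 (e1 + (2 : ℝ) • e2) = 40 := by
        simp [q2, e1, e2, E3.add_apply, E3.smul_apply, ofFun_apply]; norm_num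
      rw [k1, k2] at h
      simp [e1, e2, E3.add_apply, E3.smul_apply, ofFun_apply] at h ⊢
      linarith
  have z0 : T e0 = 0 := by
    apply E3.ext'
    intro i
    fin_cases i
    · exact a00
    · change T e0 1 = 0; linarith [p01.1, p01.2]
    · change T e0 2 = 0; linarith [p02.1, p02.2]
  have z1 : T e1 = 0 := by
    apply E3.ext'
    intro i
    fin_cases i
    · change T e1 0 = 0; linarith [p01.1, p01.2]
    · exact a11
    · change T e1 2 = 0; linarith [p12.1, p12.2]
  have z2 : T e2 = 0 := by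
    apply E3.ext'
    intro i
    fin_cases i
    · change T e2 0 = 0; linarith [p02.1, p02.2]
    · change T e2 1 = 0; linarith [p12.1, p12.2]
    · exact a22
  ext x
  have hx : x = x 0 • e0 + x 1 • e1 + x 2 • e2 := by
    apply E3.ext'
    intro i
    fin_cases i <;> simp [e0, e1, e2, E3.add_apply, E3.smul_apply, ofFun_apply]
  rw [hx, map_add, map_add, map_smul, map_smul, map_smul, z0, z1, z2]
  simp

/-- There is a positive lower bound for the numerical radius on the unit sphere of operators. -/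
theorem exists_lower_bound : ∃ c : ℝ, 0 < c ∧ ∀ T : E3 →L[ℝ] E3, ‖T‖ = 1 →
    c ≤ numRadius E3 T := by
  have hfd : FiniteDimensional ℝ (E3 →L[ℝ] E3) := inferInstance
  have hproper : ProperSpace (E3 →L[ℝ] E3) := FiniteDimensional.proper_real _
  have hcomp : IsCompact (Metric.sphere (0 : E3 →L[ℝ] E3) 1) := isCompact_sphere _ _
  have hne : (Metric.sphere (0 : E3 →L[ℝ] E3) 1).Nonempty :=
    ⟨ContinuousLinearMap.id ℝ E3, by simp⟩
  obtain ⟨T0, hT0, hmin⟩ := hcomp.exists_isMinOn hne continuous_numRadius.continuousOn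
  refine ⟨numRadius E3 T0, ?_, fun T hT => hmin (by simpa using hT)⟩
  rcases (numRadius_nonneg T0).lt_or_eq with h | h
  · exact h
  · exfalso
    have h0 := eq_zero_of_numRadius h.symm
    rw [h0] at hT0
    simp at hT0

theorem polyNumIndex_one_pos : 0 < polyNumIndex E3 1 := by
  obtain ⟨c, hc, hlow⟩ := exists_lower_bound
  refine lt_of_lt_of_le hc ?_
  unfold polyNumIndex
  apply le_csInf
  · refine ⟨numRadius E3 (ContinuousLinearMap.id ℝ E3), fun x => x, ?_, ?_, rfl⟩
    · exact ⟨ContinuousMultilinearMap.ofSubsingleton ℝ E3 E3 (0 : Fin 1)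
        (ContinuousLinearMap.id ℝ E3), fun x => rfl⟩
    · unfold polyNorm
      have h := ContinuousLinearMap.sSup_unitClosedBall_eq_norm (ContinuousLinearMap.id ℝ E3)
      rw [ContinuousLinearMap.norm_id] at h
      refine Eq.trans ?_ h
      congr 1
      ext r
      constructor
      · rintro ⟨x, hx, rfl⟩
        exact ⟨x, by simpa using hx, rfl⟩
      · rintro ⟨x, hx, rfl⟩
        exact ⟨x, by simpa using hx, rfl⟩
  · rintro r ⟨P, ⟨A, hA⟩, hP, rfl⟩
    let T : E3 →L[ℝ] E3 := (ContinuousMultilinearMap.ofSubsingleton ℝ E3 E3 (0 : Fin 1)).symm A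
    have hPT : P = T := by
      ext1 x
      rw [hA]
      rfl
    have hT : ‖T‖ = 1 := by
      rw [← hP, ← ContinuousLinearMap.sSup_unitClosedBall_eq_norm T, hPT]
      unfold polyNorm
      congr 1
      ext r
      constructor
      · rintro ⟨x, hx, rfl⟩
        exact ⟨x, by simpa using hx, rfl⟩
      · rintro ⟨x, hx, rfl⟩
        exact ⟨x, by simpa using hx, rfl⟩
    rw [hPT]
    exact hlow T hT

theorem finrank_E3 : Module.finrank ℝ E3 = 3 := by
  have : Module.finrank ℝ (Fin 3 → ℝ) = 3 := by simp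
  exact this

/-- There is a three-dimensional real Banach space `X` with `n^(2)(X) = 0` and `n(X) > 0`. -/
theorem result : ∃ (X : Type) (_ : NormedAddCommGroup X) (_ : NormedSpace ℝ X),
    CompleteSpace X ∧ Module.finrank ℝ X = 3 ∧
      polyNumIndex X 2 = 0 ∧ 0 < polyNumIndex X 1 :=
  ⟨E3, inferInstance, inferInstance, FiniteDimensional.complete ℝ E3, finrank_E3,
    polyNumIndex_two, polyNumIndex_one_pos⟩

end Pool.Agent.Results.MP_07f7bf_an.ThreeDimExample
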